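import Pool.Agent.Q57.WM.Fam
import Pool.Agent.Q57.PL.Slopes

/-!
# MP_6451f1_ag: the Jordan type of `N` on the `p`-adic cohomology, slopes and Hodge numbers

`PTheory K Ω` is the cohomology `H^m = H^m_pst(X)` of the smooth proper varieties over the `p`-adic
field `K` (after a finite extension of `K`, scalars extended to the algebraically closed field `Ω`),
with the linear Frobenius `F`, the monodromy operator `N`, the Hodge numbers and the `p`-adic
valuation, and its known properties `IsPLocal`. The varieties `SmVar K` are schemes of Mathlib.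

We show that the sum of the ranks of the powers `N ^ r`, `r > k`, on `H^m` is bounded by the slopes of
the Frobenius and by the Hodge numbers, for all `X`, `m` and `k`.
-/

set_option autoImplicit false

open Module

universe u v w

namespace Pool.Agent.Results.MP_6451f1_ag.JordanTypeBounds

open Pool.Agent.H914 Pool.Agent.Y163.MW Pool.Agent.Y143 Pool.Agent.Y163.MX Pool.Agent.Q57.WM

section

variable {K : Type u} [Field K] {Ω : Type w} [Field Ω] [CharZero Ω]

/-- The Jordan type of `N`, slopes and Hodge numbers: for all `X`, `m`, `k`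
`∑_{r > k} rank (N ^ r) ≤ ∑_λ (2 (2 λ - m - k) - 1)^+ ≤ ∑_{a + b = m} (2 (a - b - k) - 1)^+ h^(a, b)`. -/
def Bounds (T : PTheory.{u, v, w} K Ω) : Prop :=
  ∀ (X : SmVar.{u} K) (m k : ℕ),
    (rankTail (T.H X) m k : ℝ) ≤ slopeTail (T.H X) T.val m k ∧
    slopeTail (T.H X) T.val m k ≤ (hodgeTail m k (T.hodge X m) : ℝ)

end

/-- **The Jordan type of `N` on the `p`-adic cohomology, slopes and Hodge numbers.** -/
theorem result {K : Type u} [Field K] {Ω : Type w} [Field Ω] [CharZero Ω] [IsAlgClosed Ω]
    {T : PTheory.{u, v, w} K Ω} {q : ℕ} (hq : 1 < q) (hT : T.IsPLocal q) : Bounds T :=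
  fun X m k =>
    ⟨Pool.Agent.Q57.PL.rank_le_slope hq (hT.coh X) hT.val m k, slope_le_hodge (hT.polygons X m) k⟩

end Pool.Agent.Results.MP_6451f1_ag.JordanTypeBounds
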