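import Pool.Agent.Q57.WM.Fam

/-!
# MP_6451f1_ag: the Jordan type of `N` on the `p`-adic cohomology and the weights

`PTheory K Ω` is the cohomology `H^m = H^m_pst(X)` of the smooth proper varieties over the `p`-adic
field `K` (after a finite extension of `K`, scalars extended to the algebraically closed field `Ω`),
with the linear Frobenius `F`, the monodromy operator `N`, the Hodge numbers and the `p`-adic
valuation, and its known properties `IsPLocal`. The varieties `SmVar K` are schemes of Mathlib.

For every `X`, `m` and `k` the sum of the ranks of the powers `N ^ r`, `r > k`, on `H^m` is at most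
`∑_w (2 (w - m - k) - 1)^+`, the sum being over the weights of the Frobenius, and the equality is the
conjecture for `H^m` in the range above `k`. If another cohomology group `R` (`ℓ`-adic) has the same
characteristic polynomial of the Frobenius and satisfies the conjecture, then its ranks are the larger
ones, and the conjecture for `H^m` is the equality of the ranks.
-/

set_option autoImplicit false

open Module

universe u v w

namespace Pool.Agent.Results.MP_6451f1_ag.JordanTypeCriterion

open Pool.Agent.H914 Pool.Agent.Y163.MW Pool.Agent.Y143 Pool.Agent.Y163.MX Pool.Agent.Q57.WM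

section

variable {K : Type u} [Field K] {Ω : Type w} [Field Ω] [CharZero Ω]

/-- For every `k`: `∑_{r > k} rank (N ^ r) ≤ ∑_w (2 (w - m - k) - 1)^+`, and the conjecture for `H^m`
above `k` is the equality; the conjecture above `0` is the conjecture. -/
def Criterion (T : PTheory.{u, v, w} K Ω) (q : ℕ) (X : SmVar.{u} K) (m : ℕ) : Prop :=
  (∀ k : ℕ, rankTail (T.H X) m k ≤ weightTail (T.H X) q m k ∧
    (WMAbove (T.H X) q m k ↔ rankTail (T.H X) m k = weightTail (T.H X) q m k)) ∧
    (WMAbove (T.H X) q m 0 ↔ (T.H X).MWPure q m)

/-- Comparison with another theory (`ℓ`-adic cohomology) `R` with the same characteristic polynomial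
of the Frobenius on `H^m`: if the conjecture holds for `R` above `k` then the ranks of the powers of
`N` on `H^m(X)` are at most the ranks for `R`, and the conjecture for `H^m(X)` above `k` is the
equality. -/
def Transfer (T : PTheory.{u, v, w} K Ω) (q : ℕ) (X : SmVar.{u} K) (m : ℕ) : Prop :=
  ∀ R : Coh.{v, w} Ω, R.IsCoh q → charP R m = charP (T.H X) m → ∀ k : ℕ, WMAbove R q m k →
    rankTail (T.H X) m k ≤ rankTail R m k ∧
      (WMAbove (T.H X) q m k ↔ rankTail (T.H X) m k = rankTail R m k)

end

/-- **The Jordan type of `N` on the `p`-adic cohomology and the weights.** -/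
theorem result {K : Type u} [Field K] {Ω : Type w} [Field Ω] [CharZero Ω] [IsAlgClosed Ω]
    {T : PTheory.{u, v, w} K Ω} {q : ℕ} (hq : 1 < q) (hT : T.IsPLocal q) (X : SmVar.{u} K) (m : ℕ) :
    Criterion T q X m ∧ Transfer T q X m := by
  have hcrit : Criterion T q X m :=
    ⟨fun k => ⟨(tail_deg hq (hT.coh X) m k).1, (tail_deg hq (hT.coh X) m k).2.symm⟩,
      wmAbove_zero hq (hT.coh X) m⟩
  refine ⟨hcrit, ?_⟩
  intro R hR hch k hk
  have h1 : weightTail R q m k = weightTail (T.H X) q m k :=
    weightTail_congr hq hR (hT.coh X) hch k
  have h2 := (tail_deg hq hR m k).2.2 hk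
  have h3 := (tail_deg hq (hT.coh X) m k).1
  refine ⟨by omega, ?_⟩
  rw [(hcrit.1 k).2]
  omega

end Pool.Agent.Results.MP_6451f1_ag.JordanTypeCriterion
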