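import Pool.Agent.Q57.WM.Fam
import Pool.Agent.Q57.PL.Slopes

/-!
# MP_6451f1_ag: maximal ranks of the powers of `N` on the `p`-adic cohomology

`PTheory K Ω` is the cohomology `H^m = H^m_pst(X)` of the smooth proper varieties over the `p`-adic
field `K` (after a finite extension of `K`, scalars extended to the algebraically closed field `Ω`),
with the linear Frobenius `F`, the monodromy operator `N`, the Hodge numbers and the `p`-adic
valuation, and its known properties `IsPLocal`. The varieties `SmVar K` are schemes of Mathlib.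

If the characteristic polynomials of the Frobenius on the groups `H^j`, `j ≠ m`, are rational, then
`∑_{r > k} rank (N ^ r) ≤ ∑_w (2 (w - m - k) - 1)^+ ≤ ∑_λ (2 (2 λ - m - k) - 1)^+` for the weights `w` and
the slopes `λ` of the Frobenius on `H^m`, and the conjecture for `H^m` in the range above `k` holds if the
ranks reach the bound given by the Hodge numbers.
-/

set_option autoImplicit false

open Module

universe u v w

namespace Pool.Agent.Results.MP_6451f1_ag.MaximalRanksPadic

open Pool.Agent.H914 Pool.Agent.Y163.MW Pool.Agent.Y143 Pool.Agent.Y163.MX Pool.Agent.Q57.WM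

section

variable {K : Type u} [Field K] {Ω : Type w} [Field Ω] [CharZero Ω]

/-- The weights: `∑_{r > k} rank (N ^ r) ≤ ∑_w (2 (w - m - k) - 1)^+ ≤ ∑_λ (2 (2 λ - m - k) - 1)^+` for
all `k`. -/
def Weights (T : PTheory.{u, v, w} K Ω) (q : ℕ) (X : SmVar.{u} K) (m : ℕ) : Prop :=
  ∀ k : ℕ, rankTail (T.H X) m k ≤ weightTail (T.H X) q m k ∧
    (weightTail (T.H X) q m k : ℝ) ≤ slopeTail (T.H X) T.val m k

/-- The conjecture for `H^m` holds above `k` if the ranks reach the bound given by the Hodge
numbers; for `k = 0` the whole conjecture for `H^m` holds. -/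
def Maximal (T : PTheory.{u, v, w} K Ω) (q : ℕ) (X : SmVar.{u} K) (m : ℕ) : Prop :=
  (∀ k : ℕ, hodgeTail m k (T.hodge X m) ≤ rankTail (T.H X) m k → WMAbove (T.H X) q m k) ∧
    (hodgeTail m 0 (T.hodge X m) ≤ rankTail (T.H X) m 0 → (T.H X).MWPure q m)

end

/-- **Maximal ranks of the powers of `N` on the `p`-adic cohomology.** -/
theorem result {K : Type u} [Field K] {Ω : Type w} [Field Ω] [CharZero Ω] [IsAlgClosed Ω]
    {T : PTheory.{u, v, w} K Ω} {q : ℕ} (hq : 1 < q) (hT : T.IsPLocal q) (X : SmVar.{u} K) (m : ℕ)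
    (hm : m ≤ 2 * X.dim) (hX : GoodOutside (T.H X) q (2 * X.dim) m) :
    Weights T q X m ∧ Maximal T q X m := by
  have hrat := rational_of_good (hT.coh X) hm (hT.rational X) hX
  have hw : Weights T q X m := fun k =>
    ⟨(tail_deg hq (hT.coh X) m k).1, weight_le_slope hq (hT.coh X) hrat hT.val k⟩
  have key : ∀ k : ℕ, hodgeTail m k (T.hodge X m) ≤ rankTail (T.H X) m k →
      WMAbove (T.H X) q m k := by
    intro k h
    have h1 := (hw k).2.trans (slope_le_hodge (hT.polygons X m) k)
    have h2 : weightTail (T.H X) q m k ≤ hodgeTail m k (T.hodge X m) := by exact_mod_cast h1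
    have h3 := (hw k).1
    exact (tail_deg hq (hT.coh X) m k).2.1 (by omega)
  exact ⟨hw, key, fun h => (wmAbove_zero hq (hT.coh X) m).1 (key 0 h)⟩

end Pool.Agent.Results.MP_6451f1_ag.MaximalRanksPadic
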